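import Mathlib
import Pool.Agent.H16.EPath

set_option autoImplicit false

namespace Pool.Agent.Results.MP_a6fa5c_lc.NPHard

open Pool.Agent.H11.PT Pool.Agent.H16.EPath

theorem result : NPHard fun y : List ℕ × List (List ℕ) =>
    (∀ s ∈ y.2, s ≠ [] ∧ ∀ e ∈ s, e ∈ y.1) ∧ Real y.1 y.2 := hard.npHard

end Pool.Agent.Results.MP_a6fa5c_lc.NPHard
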